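import Mathlib

/-!
# PS-1: the determinant of a weighted positive semidefinite matrix
-/

set_option autoImplicit false

open MeasureTheory Set Metric Filter Module Matrix
open scoped NNReal Topology RealInnerProductSpace ENNReal Real

namespace Pool.Agent.Helper19.PS

/-- the inequality between the arithmetic and the geometric mean for the eigenvalues -/
theorem ps1_det_le {d : ℕ} (hd : 0 < d) (M : Matrix (Fin d) (Fin d) ℝ) (hM : M.PosSemidef) :
    0 ≤ trace M ∧ M.det ≤ (trace M / d) ^ d := by
  have hdet : M.det = ∏ i, hM.1.eigenvalues i := by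
    have := hM.1.det_eq_prod_eigenvalues
    simpa using this
  have htr : trace M = ∑ i, hM.1.eigenvalues i := by
    have := hM.1.trace_eq_sum_eigenvalues
    simpa using this
  have hnn : ∀ i, 0 ≤ hM.1.eigenvalues i := hM.eigenvalues_nonneg
  refine ⟨by rw [htr]; exact Finset.sum_nonneg fun i _ => hnn i, ?_⟩
  have hdR : (0 : ℝ) < d := by exact_mod_cast hd
  have h1 := Real.geom_mean_le_arith_mean_weighted Finset.univ (fun _ : Fin d => (1 : ℝ) / d)
    hM.1.eigenvalues (fun _ _ => by positivity) (by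
      rw [Finset.sum_const, Finset.card_univ, Fintype.card_fin, nsmul_eq_mul]
      field_simp) (fun i _ => hnn i)
  have h2 : ∏ i, hM.1.eigenvalues i = (∏ i, hM.1.eigenvalues i ^ ((1 : ℝ) / d)) ^ d := by
    rw [← Finset.prod_pow]
    refine Finset.prod_congr rfl fun i _ => ?_
    rw [← Real.rpow_natCast, ← Real.rpow_mul (hnn i), one_div, inv_mul_cancel₀ hdR.ne',
      Real.rpow_one]
  rw [hdet, h2]
  refine pow_le_pow_left₀ (Finset.prod_nonneg fun i _ => Real.rpow_nonneg (hnn i) _) ?_ d
  refine h1.trans (le_of_eq ?_)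
  rw [htr, ← Finset.mul_sum]
  ring

theorem det_weight {d : ℕ} (hd : 0 < d) (G : Matrix (Fin d) (Fin d) ℝ) (hG : G.PosSemidef)
    (v : Fin d → ℝ) (hv : v ⬝ᵥ v = 1) (s : ℝ) (hs0 : 0 ≤ s) (hs1 : s ≤ 1) :
    0 ≤ trace G - (1 - s) * (v ⬝ᵥ (G *ᵥ v)) ∧
    s * G.det ≤ ((trace G - (1 - s) * (v ⬝ᵥ (G *ᵥ v))) / d) ^ d := by
  set c : ℝ := 1 - √s with hc
  have hss : √s * √s = s := Real.mul_self_sqrt hs0
  set S : Matrix (Fin d) (Fin d) ℝ := 1 - c • vecMulVec v v with hS
  have hST : Sᴴ = S := by
    rw [hS, conjTranspose_sub, conjTranspose_one, conjTranspose_smul]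
    congr 2
    ext i j
    simp [vecMulVec_apply, mul_comm]
  have hvv : vecMulVec v v * vecMulVec v v = vecMulVec v v := by
    rw [vecMulVec_mul_vecMulVec, hv, one_smul]
  have hSS : S * S = 1 - (1 - s) • vecMulVec v v := by
    have e : (1 : ℝ) - s = 2 * c - c * c := by rw [hc]; linear_combination hss
    rw [hS, Matrix.sub_mul, Matrix.one_mul, Matrix.mul_sub, Matrix.mul_one,
      Matrix.smul_mul, Matrix.mul_smul, hvv, smul_smul, e]
    module
  have hM : (S * G * S).PosSemidef := by
    have := hG.mul_mul_conjTranspose_same S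
    rwa [hST] at this
  have hdetS : S.det = √s := by
    have e1 : S = 1 + replicateCol Unit (-(c • v)) * replicateRow Unit v := by
      rw [hS, sub_eq_add_neg]
      congr 1
      ext i j
      simp [vecMulVec_apply, Matrix.mul_apply, mul_assoc]
    rw [e1, det_one_add_replicateCol_mul_replicateRow, dotProduct_neg, dotProduct_smul, hv, hc]
    simp
  have hdet : (S * G * S).det = s * G.det := by
    rw [det_mul, det_mul, hdetS]
    linear_combination G.det * hss
  have htr : trace (S * G * S) = trace G - (1 - s) * (v ⬝ᵥ (G *ᵥ v)) := by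
    rw [Matrix.mul_assoc, trace_mul_comm, Matrix.mul_assoc, hSS, Matrix.mul_sub, Matrix.mul_one,
      trace_sub, Matrix.mul_smul, trace_smul, smul_eq_mul, mul_vecMulVec, trace_vecMulVec,
      dotProduct_comm]
  have h := ps1_det_le hd _ hM
  rw [hdet, htr] at h
  exact h

end Pool.Agent.Helper19.PS
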